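import Mathlib

set_option autoImplicit false

/-! Bit masks for the powers of the maximal ideal of a numerical semigroup. -/

namespace Pool.Agent.W251.Mask

/-- shift-or step. -/
def step (S : List ℕ) (t : ℕ) : ℕ := S.foldr (fun g acc => (t <<< g) ||| acc) 0

lemma testBit_step (S : List ℕ) (t n : ℕ) :
    (step S t).testBit n = true ↔ ∃ g ∈ S, g ≤ n ∧ t.testBit (n - g) = true := by
  induction S with
  | nil => simp [step]
  | cons g S ih =>
    have : step (g :: S) t = (t <<< g) ||| step S t := rfl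
    rw [this, Nat.testBit_or, Bool.or_eq_true, ih, Nat.testBit_shiftLeft, Bool.and_eq_true,
      decide_eq_true_iff]
    simp [List.mem_cons]

/-- truncated step. -/
def stepN (N : ℕ) (S : List ℕ) (t : ℕ) : ℕ := step S t % 2 ^ N

/-- The masks. -/
noncomputable def T (N : ℕ) (S : List ℕ) (t0 : ℕ) (j : ℕ) : ℕ :=
  Nat.rec (motive := fun _ => ℕ) t0 (fun _ t => stepN N S t) j

/-- The semigroup. -/
def Gam (S : List ℕ) : AddSubmonoid ℕ := AddSubmonoid.closure {x | x ∈ S}

/-- sums of `j` generators plus an element of the semigroup. -/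
def P (S : List ℕ) : ℕ → ℕ → Prop
  | 0, n => n ∈ Gam S
  | j + 1, n => ∃ g ∈ S, ∃ m, P S j m ∧ n = g + m

lemma mem_Gam_iff (S : List ℕ) (n : ℕ) :
    n ∈ Gam S ↔ n = 0 ∨ ∃ g ∈ S, ∃ m ∈ Gam S, n = g + m := by
  constructor
  · intro h
    induction h using AddSubmonoid.closure_induction with
    | mem x hx => exact Or.inr ⟨x, hx, 0, (Gam S).zero_mem, by simp⟩
    | zero => exact Or.inl rfl
    | add x y hx hy ihx ihy =>
      rcases ihx with rfl | ⟨g, hg, m, hm, rfl⟩
      · simpa using ihy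
      · exact Or.inr ⟨g, hg, m + y, (Gam S).add_mem hm hy, by ring⟩
  · rintro (rfl | ⟨g, hg, m, hm, rfl⟩)
    · exact (Gam S).zero_mem
    · exact (Gam S).add_mem (AddSubmonoid.subset_closure hg) hm

lemma gen_mem {S : List ℕ} {g : ℕ} (hg : g ∈ S) : g ∈ Gam S := AddSubmonoid.subset_closure hg

lemma mask_zero {N : ℕ} {S : List ℕ} {t0 : ℕ} (hS : ∀ g ∈ S, 0 < g)
    (hfix : t0 = (1 ||| step S t0) % 2 ^ N) (n : ℕ) (hn : n < N) :
    t0.testBit n = true ↔ n ∈ Gam S := by
  induction n using Nat.strong_induction_on with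
  | _ n ih =>
    rw [mem_Gam_iff, hfix, Nat.testBit_mod_two_pow, Nat.testBit_or]
    simp only [hn, decide_true, Bool.true_and, Bool.or_eq_true]
    rw [Nat.testBit_one_eq_true_iff_self_eq_zero, testBit_step]
    refine or_congr_right ?_
    constructor
    · rintro ⟨g, hg, hle, hb⟩
      have hpos := hS g hg
      exact ⟨g, hg, n - g, (ih (n - g) (by omega) (by omega)).1 hb, by omega⟩
    · rintro ⟨g, hg, m, hm, rfl⟩
      have hpos := hS g hg
      refine ⟨g, hg, by omega, ?_⟩
      have := (ih m (by omega) (by omega)).2 hm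
      simpa using this

lemma mask_spec {N : ℕ} {S : List ℕ} {t0 : ℕ} (hS : ∀ g ∈ S, 0 < g)
    (hfix : t0 = (1 ||| step S t0) % 2 ^ N) (j : ℕ) (n : ℕ) (hn : n < N) :
    (T N S t0 j).testBit n = true ↔ P S j n := by
  induction j generalizing n with
  | zero => exact mask_zero hS hfix n hn
  | succ j ih =>
    have : T N S t0 (j + 1) = stepN N S (T N S t0 j) := rfl
    rw [this, stepN, Nat.testBit_mod_two_pow]
    simp only [hn, decide_true, Bool.true_and]
    rw [testBit_step]
    constructor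
    · rintro ⟨g, hg, hle, hb⟩
      exact ⟨g, hg, n - g, (ih (n - g) (by omega)).1 hb, by omega⟩
    · rintro ⟨g, hg, m, hm, rfl⟩
      refine ⟨g, hg, by omega, ?_⟩
      have := (ih m (by omega)).2 hm
      simpa using this

lemma T_lt {N : ℕ} {S : List ℕ} {t0 : ℕ} (hfix : t0 = (1 ||| step S t0) % 2 ^ N) (j : ℕ) :
    T N S t0 j < 2 ^ N := by
  cases j with
  | zero => show t0 < _; rw [hfix]; exact Nat.mod_lt _ (by positivity)
  | succ j => exact Nat.mod_lt _ (by positivity)

lemma P_add {S : List ℕ} {j n : ℕ} (h : P S j n) {m : ℕ} (hm : m ∈ Gam S) : P S j (m + n) := by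
  induction j generalizing n with
  | zero => exact (Gam S).add_mem hm h
  | succ j ih =>
    obtain ⟨g, hg, l, hl, rfl⟩ := h
    exact ⟨g, hg, m + l, ih hl, by ring⟩

lemma P_succ_le {S : List ℕ} {j n : ℕ} (h : P S (j + 1) n) : P S j n := by
  obtain ⟨g, hg, l, hl, rfl⟩ := h
  exact P_add hl (gen_mem hg)

lemma P_of_large {S : List ℕ} {g : ℕ} (hg : g ∈ S) (j n : ℕ) (hn : n ∈ Gam S) :
    P S j (j * g + n) := by
  induction j with
  | zero => simpa [P] using hn
  | succ j ih => exact ⟨g, hg, _, ih, by ring⟩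

/-- The set of sums of `j` nonzero elements of the semigroup, as in the frozen statement. -/
def J (Γ : AddSubmonoid ℕ) (j : ℕ) : Set ℕ :=
  {n : ℕ | ∃ f : Fin j → ℕ, (∀ i, f i ∈ Γ ∧ f i ≠ 0) ∧ n = ∑ i, f i}

lemma mem_J_succ (Γ : AddSubmonoid ℕ) (j n : ℕ) :
    n ∈ J Γ (j + 1) ↔ ∃ a, (a ∈ Γ ∧ a ≠ 0) ∧ ∃ m ∈ J Γ j, n = a + m := by
  constructor
  · rintro ⟨f, hf, rfl⟩
    refine ⟨f 0, hf 0, ∑ i : Fin j, f i.succ, ⟨fun i => f i.succ, fun i => hf _, rfl⟩, ?_⟩
    rw [Fin.sum_univ_succ]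
  · rintro ⟨a, ha, m, ⟨f, hf, rfl⟩, rfl⟩
    refine ⟨Fin.cons a f, ?_, ?_⟩
    · intro i
      refine Fin.cases ?_ (fun i => ?_) i
      · simpa using ha
      · simpa using hf i
    · rw [Fin.sum_univ_succ]; simp

lemma J_eq_P (S : List ℕ) (hS : ∀ g ∈ S, 0 < g) (j n : ℕ) :
    n ∈ J (Gam S) (j + 1) ↔ P S (j + 1) n := by
  induction j generalizing n with
  | zero =>
    rw [mem_J_succ]
    constructor
    · rintro ⟨a, ⟨ha, ha0⟩, m, ⟨f, _, hm⟩, hn⟩
      have h0 : n = a := by
        rw [hn, hm, Finset.sum_eq_zero (fun i _ => i.elim0), add_zero]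
      rw [h0]
      rcases (mem_Gam_iff S a).1 ha with h | ⟨g, hg, m, hm, hgm⟩
      · exact absurd h ha0
      · exact ⟨g, hg, m, hm, hgm⟩
    · rintro ⟨g, hg, m, hm, rfl⟩
      have := hS g hg
      exact ⟨g + m, ⟨(Gam S).add_mem (gen_mem hg) hm, by omega⟩, 0,
        ⟨Fin.elim0, fun i => i.elim0, by simp⟩, by simp⟩
  | succ j ih =>
    rw [mem_J_succ]
    constructor
    · rintro ⟨a, ⟨ha, ha0⟩, m, hm, rfl⟩
      have hm' := (ih m).1 hm
      rcases (mem_Gam_iff S a).1 ha with h | ⟨g, hg, l, hl, rfl⟩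
      · exact absurd h ha0
      · exact ⟨g, hg, l + m, P_add hm' hl, by ring⟩
    · rintro ⟨g, hg, m, hm, rfl⟩
      have := hS g hg
      exact ⟨g, ⟨gen_mem hg, by omega⟩, m, (ih m).2 hm, rfl⟩

/-- Recursive bit count (sparse). -/
noncomputable def pc (k : ℕ) : ℕ → ℕ :=
  Nat.rec (motive := fun _ => ℕ → ℕ) (fun D => D)
    (fun k ih D => bif Nat.beq D 0 then 0 else ih (D % 2 ^ (2 ^ k)) + ih (D >>> (2 ^ k))) k

lemma pc_succ (k D : ℕ) : pc (k + 1) D =
    bif Nat.beq D 0 then 0 else pc k (D % 2 ^ (2 ^ k)) + pc k (D >>> (2 ^ k)) := rfl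

lemma pc_spec (k D : ℕ) (hD : D < 2 ^ (2 ^ k)) :
    ((Finset.range (2 ^ k)).filter (fun n => D.testBit n = true)).card = pc k D := by
  induction k generalizing D with
  | zero =>
    have h2 : D < 2 := by simpa using hD
    have : pc 0 D = D := rfl
    rw [this]
    interval_cases D <;> decide
  | succ k ih =>
    rw [pc_succ]
    by_cases h0 : D = 0
    · subst h0; simp
    · have hb : Nat.beq D 0 = false := by
        cases h : Nat.beq D 0 with
        | false => rfl
        | true => exact absurd (Nat.eq_of_beq_eq_true h) h0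
      rw [hb, cond_false, ← ih (D % 2 ^ (2 ^ k)) (Nat.mod_lt _ (by positivity)),
        ← ih (D >>> (2 ^ k))]
      · rw [Finset.card_filter, Finset.card_filter, Finset.card_filter, pow_succ, mul_two,
          Finset.sum_range_add]
        congr 1
        · refine Finset.sum_congr rfl fun n hn => ?_
          rw [Nat.testBit_mod_two_pow]
          have : n < 2 ^ k := Finset.mem_range.1 hn
          simp [this]
        · refine Finset.sum_congr rfl fun n hn => ?_
          rw [Nat.testBit_shiftRight]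
      · rw [Nat.shiftRight_eq_div_pow, Nat.div_lt_iff_lt_mul (by positivity), ← pow_add]
        rwa [pow_succ, mul_two] at hD

end Pool.Agent.W251.Mask
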