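import Mathlib
import Pool.Agent.W251.Mask

set_option autoImplicit false

namespace Pool.Agent.W251.Data
open Pool.Agent.W251.Mask

/-- generators -/
def S : List ℕ := [4249, 4392, 4536, 12222, 15372, 16632, 24948]

/-- range of the masks -/
def N : ℕ := 524288

/-- closing a mask under one generator -/
def closeGen (g : ℕ) (t : ℕ) : ℕ :=
  [1, 2, 4, 8, 16, 32, 64].foldl (fun t c => (t ||| (t <<< (g * c))) % 2 ^ N) t

/-- mask of the semigroup -/
def t0 : ℕ := S.foldl (fun t g => closeGen g t) 1

theorem hfix : t0 = (1 ||| step S t0) % 2 ^ N := by decide +kernel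

theorem htail : t0 >>> 195228 = 2 ^ (N - 195228) - 1 := by decide +kernel

theorem hmin : ∀ g ∈ S, (T N S t0 2).testBit g = false := by decide +kernel

theorem h57 : pc 19 (T N S t0 57 ^^^ T N S t0 58) = 4119 := by decide +kernel

theorem h58 : pc 19 (T N S t0 58 ^^^ T N S t0 59) = 4118 := by decide +kernel

end Pool.Agent.W251.Data
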