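import Mathlib

set_option autoImplicit false

/-! Gluing of numerical semigroups and complete intersections: well-definedness of monomials
modulo the gluing relations. -/

namespace Pool.Agent.W251.Glue

/-- `f` restricted to `Γ` is a monoid homomorphism from the additive monoid `Γ` to `Q`. -/
structure IsHom {Q : Type*} [CommMonoid Q] (Γ : AddSubmonoid ℕ) (f : ℕ → Q) : Prop where
  zero : f 0 = 1
  add : ∀ x ∈ Γ, ∀ y ∈ Γ, f (x + y) = f x * f y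

variable {Q : Type*} [CommMonoid Q]

lemma IsHom.nsmul {Γ : AddSubmonoid ℕ} {f : ℕ → Q} (h : IsHom Γ f) {x : ℕ} (hx : x ∈ Γ) (k : ℕ) :
    f (k * x) = f x ^ k := by
  induction k with
  | zero => simpa using h.zero
  | succ k ih =>
    have hk : k * x ∈ Γ := by simpa using Γ.nsmul_mem hx k
    rw [Nat.succ_mul, h.add _ hk _ hx, ih, pow_succ]

/-- powers: the base case `Γ = ℕ`. -/
lemma isHom_pow (q : Q) : IsHom (⊤ : AddSubmonoid ℕ) (fun n => q ^ n) :=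
  ⟨pow_zero q, fun x _ y _ => pow_add q x y⟩

lemma wd_aux {Γ₁ Γ₂ : AddSubmonoid ℕ} {f₁ f₂ : ℕ → Q} (h₁ : IsHom Γ₁ f₁) (h₂ : IsHom Γ₂ f₂)
    {a b : ℕ} (hab : Nat.Coprime a b) (ha0 : 0 < a) (hb0 : 0 < b) (hb : b ∈ Γ₁) (ha : a ∈ Γ₂)
    (hf : f₁ b = f₂ a) {x x' y y' : ℕ} (hx' : x' ∈ Γ₁) (hy : y ∈ Γ₂)
    (hle : x' ≤ x) (h : a * x + b * y = a * x' + b * y') :
    f₁ x * f₂ y = f₁ x' * f₂ y' := by
  obtain ⟨d, rfl⟩ := Nat.exists_eq_add_of_le hle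
  have hyy : y ≤ y' := by
    by_contra hlt
    push Not at hlt
    have : b * y' < b * y := Nat.mul_lt_mul_of_pos_left hlt hb0
    nlinarith [Nat.zero_le (a * d)]
  obtain ⟨e, rfl⟩ := Nat.exists_eq_add_of_le hyy
  have hde : a * d = b * e := by nlinarith
  have hbd : b ∣ d := by
    have : b ∣ a * d := ⟨e, hde⟩
    exact (Nat.Coprime.dvd_of_dvd_mul_left hab.symm this)
  obtain ⟨k, rfl⟩ := hbd
  have hek : e = a * k := by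
    have : b * e = b * (a * k) := by rw [← hde]; ring
    exact Nat.eq_of_mul_eq_mul_left hb0 this
  subst hek
  have e1 : f₁ (x' + b * k) = f₁ x' * f₁ b ^ k := by
    rw [h₁.add _ hx' _ (by simpa [mul_comm] using Γ₁.nsmul_mem hb k), mul_comm b k, h₁.nsmul hb]
  have e2 : f₂ (y + a * k) = f₂ y * f₂ a ^ k := by
    rw [h₂.add _ hy _ (by simpa [mul_comm] using Γ₂.nsmul_mem ha k), mul_comm a k, h₂.nsmul ha]
  rw [e1, e2, hf, mul_assoc, mul_comm (f₂ a ^ k)]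

lemma wd {Γ₁ Γ₂ : AddSubmonoid ℕ} {f₁ f₂ : ℕ → Q} (h₁ : IsHom Γ₁ f₁) (h₂ : IsHom Γ₂ f₂)
    {a b : ℕ} (hab : Nat.Coprime a b) (ha0 : 0 < a) (hb0 : 0 < b) (hb : b ∈ Γ₁) (ha : a ∈ Γ₂)
    (hf : f₁ b = f₂ a) {x x' y y' : ℕ} (hx : x ∈ Γ₁) (hx' : x' ∈ Γ₁) (hy : y ∈ Γ₂) (hy' : y' ∈ Γ₂)
    (h : a * x + b * y = a * x' + b * y') :
    f₁ x * f₂ y = f₁ x' * f₂ y' := by
  rcases le_total x' x with hle | hle
  · exact wd_aux h₁ h₂ hab ha0 hb0 hb ha hf hx' hy hle h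
  · exact (wd_aux h₁ h₂ hab ha0 hb0 hb ha hf hx hy' hle h.symm).symm

/-- The glued semigroup `a Γ₁ + b Γ₂`. -/
def glueS (a : ℕ) (Γ₁ : AddSubmonoid ℕ) (b : ℕ) (Γ₂ : AddSubmonoid ℕ) : AddSubmonoid ℕ where
  carrier := {n | ∃ x ∈ Γ₁, ∃ y ∈ Γ₂, n = a * x + b * y}
  zero_mem' := ⟨0, Γ₁.zero_mem, 0, Γ₂.zero_mem, by simp⟩
  add_mem' := by
    rintro _ _ ⟨x, hx, y, hy, rfl⟩ ⟨x', hx', y', hy', rfl⟩
    exact ⟨x + x', Γ₁.add_mem hx hx', y + y', Γ₂.add_mem hy hy', by ring⟩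

lemma mem_glueS {a b : ℕ} {Γ₁ Γ₂ : AddSubmonoid ℕ} {n : ℕ} :
    n ∈ glueS a Γ₁ b Γ₂ ↔ ∃ x ∈ Γ₁, ∃ y ∈ Γ₂, n = a * x + b * y := Iff.rfl

theorem glue {Γ₁ Γ₂ : AddSubmonoid ℕ} {f₁ f₂ : ℕ → Q} (h₁ : IsHom Γ₁ f₁) (h₂ : IsHom Γ₂ f₂)
    {a b : ℕ} (hab : Nat.Coprime a b) (ha0 : 0 < a) (hb0 : 0 < b) (hb : b ∈ Γ₁) (ha : a ∈ Γ₂)
    (hf : f₁ b = f₂ a) :
    ∃ f : ℕ → Q, IsHom (glueS a Γ₁ b Γ₂) f ∧ (∀ x ∈ Γ₁, f (a * x) = f₁ x) ∧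
      (∀ y ∈ Γ₂, f (b * y) = f₂ y) := by
  classical
  let f : ℕ → Q := fun n => if h : n ∈ glueS a Γ₁ b Γ₂ then
    f₁ (mem_glueS.1 h).choose * f₂ (mem_glueS.1 h).choose_spec.2.choose else 1
  have key : ∀ x ∈ Γ₁, ∀ y ∈ Γ₂, f (a * x + b * y) = f₁ x * f₂ y := by
    intro x hx y hy
    have h : a * x + b * y ∈ glueS a Γ₁ b Γ₂ := mem_glueS.2 ⟨x, hx, y, hy, rfl⟩
    have hdef : f (a * x + b * y) = f₁ (mem_glueS.1 h).choose *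
        f₂ (mem_glueS.1 h).choose_spec.2.choose := by simp only [f]; rw [dif_pos h]
    rw [hdef]
    have hc1 := (mem_glueS.1 h).choose_spec.1
    have hc2 := (mem_glueS.1 h).choose_spec.2.choose_spec.1
    have hc3 := (mem_glueS.1 h).choose_spec.2.choose_spec.2
    exact wd h₁ h₂ hab ha0 hb0 hb ha hf hc1 hx hc2 hy hc3.symm
  refine ⟨f, ⟨?_, ?_⟩, ?_, ?_⟩
  · have := key 0 Γ₁.zero_mem 0 Γ₂.zero_mem
    simpa [h₁.zero, h₂.zero] using this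
  · rintro _ ⟨x, hx, y, hy, rfl⟩ _ ⟨x', hx', y', hy', rfl⟩
    have : a * x + b * y + (a * x' + b * y') = a * (x + x') + b * (y + y') := by ring
    rw [this, key _ (Γ₁.add_mem hx hx') _ (Γ₂.add_mem hy hy'), key _ hx _ hy, key _ hx' _ hy',
      h₁.add _ hx _ hx', h₂.add _ hy _ hy', mul_mul_mul_comm]
  · intro x hx
    simpa [h₂.zero] using key x hx 0 Γ₂.zero_mem
  · intro y hy
    simpa [h₁.zero] using key 0 Γ₁.zero_mem y hy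

end Pool.Agent.W251.Glue
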