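import Mathlib
import Pool.Agent.W251.Glue

set_option autoImplicit false

/-! The toric ideal of a numerical semigroup from a well-defined map on the semigroup. -/

namespace Pool.Agent.W251.Glue

open MvPolynomial

variable {k : Type*} [Field k] {σ : Type*}

lemma hom_monomial {g : σ → ℕ} {Γ : AddSubmonoid ℕ} (hg : ∀ i, g i ∈ Γ)
    {I : Ideal (MvPolynomial σ k)} {f : ℕ → MvPolynomial σ k ⧸ I} (hf : IsHom Γ f)
    (hfg : ∀ i, f (g i) = Ideal.Quotient.mk I (X i)) (u : σ →₀ ℕ) :
    (u.sum fun i c => c * g i) ∈ Γ ∧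
      f (u.sum fun i c => c * g i) = Ideal.Quotient.mk I (monomial u 1) := by
  classical
  induction u using Finsupp.induction_linear with
  | zero => exact ⟨by simp, by simpa using hf.zero⟩
  | add u v hu hv =>
    have hs : ((u + v).sum fun i c => c * g i) = (u.sum fun i c => c * g i) +
        (v.sum fun i c => c * g i) := by
      rw [Finsupp.sum_add_index']
      · intro i; simp
      · intro i a b; ring
    refine ⟨by rw [hs]; exact Γ.add_mem hu.1 hv.1, ?_⟩
    rw [hs, hf.add _ hu.1 _ hv.1, hu.2, hv.2, ← map_mul, monomial_mul, one_mul]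
  | single i c =>
    have hs : ((Finsupp.single i c).sum fun i c => c * g i) = c * g i := by
      rw [Finsupp.sum_single_index]; simp
    refine ⟨by rw [hs]; simpa using Γ.nsmul_mem (hg i) c, ?_⟩
    rw [hs, hf.nsmul (hg i), hfg, ← map_pow, X_pow_eq_monomial]

theorem ker_le {g : σ → ℕ} {Γ : AddSubmonoid ℕ} (hg : ∀ i, g i ∈ Γ)
    {I : Ideal (MvPolynomial σ k)} {f : ℕ → MvPolynomial σ k ⧸ I} (hf : IsHom Γ f)
    (hfg : ∀ i, f (g i) = Ideal.Quotient.mk I (X i)) :
    RingHom.ker (MvPolynomial.aeval (fun i => (Polynomial.X : Polynomial k) ^ g i)) ≤ I := by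
  classical
  let F : Polynomial k →ₗ[k] (MvPolynomial σ k ⧸ I) :=
    Polynomial.lsum (fun n => (LinearMap.toSpanSingleton k (MvPolynomial σ k ⧸ I) (f n)))
  have hF : ∀ n, F (Polynomial.X ^ n) = f n := by
    intro n
    rw [Polynomial.X_pow_eq_monomial]
    simp only [F, Polynomial.lsum_apply]
    rw [Polynomial.sum_monomial_index]
    · simp
    · simp
  have hcomp : ∀ p : MvPolynomial σ k,
      F (MvPolynomial.aeval (fun i => (Polynomial.X : Polynomial k) ^ g i) p) =
        Ideal.Quotient.mk I p := by
    intro p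
    induction p using MvPolynomial.induction_on' with
    | add p q hp hq => rw [map_add, map_add, hp, hq, map_add]
    | monomial u c =>
      have h1 : (monomial u c : MvPolynomial σ k) = c • monomial u 1 := by
        rw [smul_monomial, smul_eq_mul, mul_one]
      rw [h1, map_smul, map_smul]
      have h2 : MvPolynomial.aeval (fun i => (Polynomial.X : Polynomial k) ^ g i)
          (monomial u (1 : k)) = Polynomial.X ^ (u.sum fun i c => c * g i) := by
        rw [aeval_monomial, map_one, one_mul, Finsupp.prod, Finsupp.sum,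
          ← Finset.prod_pow_eq_pow_sum]
        refine Finset.prod_congr rfl fun i _ => ?_
        rw [← pow_mul, mul_comm]
      rw [h2, hF, (hom_monomial hg hf hfg u).2]
      rw [← Ideal.Quotient.mkₐ_eq_mk k, map_smul]
  intro p hp
  rw [RingHom.mem_ker] at hp
  have := hcomp p
  rw [hp, map_zero] at this
  exact Ideal.Quotient.eq_zero_iff_mem.1 this.symm

end Pool.Agent.W251.Glue
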