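import Mathlib
import Pool.Agent.W251.Glue

set_option autoImplicit false

/-! The gluing tower of the semigroup `⟨4249, 4392, 4536, 12222, 15372, 16632, 24948⟩`. -/

namespace Pool.Agent.W251.Tower
open Pool.Agent.W251.Glue

variable {Q : Type*} [CommMonoid Q]

/-- level with the pair of generators `a, b`. -/
lemma pair (p q : Q) {a b : ℕ} (hab : Nat.Coprime a b) (ha0 : 0 < a) (hb0 : 0 < b)
    (h : p ^ b = q ^ a) :
    ∃ (Γ : AddSubmonoid ℕ) (f : ℕ → Q), IsHom Γ f ∧ (∀ m n : ℕ, a * m + b * n ∈ Γ) ∧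
      (∀ m n : ℕ, f (a * m + b * n) = p ^ m * q ^ n) := by
  obtain ⟨f, hf, h1, h2⟩ := glue (isHom_pow p) (isHom_pow q) hab ha0 hb0 (AddSubmonoid.mem_top b)
    (AddSubmonoid.mem_top a) h
  have hmem : ∀ m n : ℕ, a * m + b * n ∈ glueS a (⊤ : AddSubmonoid ℕ) b ⊤ := fun m n =>
    mem_glueS.2 ⟨m, AddSubmonoid.mem_top _, n, AddSubmonoid.mem_top _, rfl⟩
  refine ⟨_, f, hf, hmem, fun m n => ?_⟩
  have e1 := h1 m (AddSubmonoid.mem_top _)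
  have e2 := h2 n (AddSubmonoid.mem_top _)
  rw [hf.add _ (by simpa using hmem m 0) _ (by simpa using hmem 0 n), e1, e2]

/-- glue in the form used below -/
lemma glue' {Γ₁ Γ₂ : AddSubmonoid ℕ} {f₁ f₂ : ℕ → Q} (h₁ : IsHom Γ₁ f₁) (h₂ : IsHom Γ₂ f₂)
    {a b : ℕ} (hab : Nat.Coprime a b) (ha0 : 0 < a) (hb0 : 0 < b) (hb : b ∈ Γ₁) (ha : a ∈ Γ₂)
    (hf : f₁ b = f₂ a) :
    ∃ (Γ : AddSubmonoid ℕ) (f : ℕ → Q), IsHom Γ f ∧
      (∀ x ∈ Γ₁, ∀ y ∈ Γ₂, a * x + b * y ∈ Γ ∧ f (a * x + b * y) = f₁ x * f₂ y) := by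
  obtain ⟨f, hf', h1, h2⟩ := glue h₁ h₂ hab ha0 hb0 hb ha hf
  refine ⟨_, f, hf', fun x hx y hy => ⟨mem_glueS.2 ⟨x, hx, y, hy, rfl⟩, ?_⟩⟩
  have e1 := h1 x hx
  have e2 := h2 y hy
  rw [hf'.add _ (mem_glueS.2 ⟨x, hx, 0, Γ₂.zero_mem, by simp⟩) _
    (mem_glueS.2 ⟨0, Γ₁.zero_mem, y, hy, by simp⟩), e1, e2]

theorem exists_hom (v y2 z6 w y7 z22 z33 : Q) (R1 : y2 ^ 7 = y7 ^ 2) (R2 : z22 ^ 3 = z33 ^ 2)
    (R3 : z6 ^ 11 = z22 ^ 3) (R4 : z6 * z22 * z33 = y7 ^ 3) (R5 : y7 * z6 ^ 2 = w ^ 2)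
    (R6 : w * y7 ^ 3 * z6 ^ 4 = v ^ 18) :
    ∃ (Γ : AddSubmonoid ℕ) (f : ℕ → Q), IsHom Γ f ∧
      (4249 ∈ Γ ∧ f 4249 = v) ∧ (4392 ∈ Γ ∧ f 4392 = y2) ∧ (4536 ∈ Γ ∧ f 4536 = z6) ∧
      (12222 ∈ Γ ∧ f 12222 = w) ∧ (15372 ∈ Γ ∧ f 15372 = y7) ∧ (16632 ∈ Γ ∧ f 16632 = z22) ∧
      (24948 ∈ Γ ∧ f 24948 = z33) := by
  -- ⟨2, 7⟩
  obtain ⟨G2, f2, hf2, m2, e2⟩ := pair y2 y7 (a := 2) (b := 7) (by norm_num) (by norm_num)
    (by norm_num) R1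
  -- ⟨2, 3⟩
  obtain ⟨G3, f3, hf3, m3, e3⟩ := pair z22 z33 (a := 2) (b := 3) (by norm_num) (by norm_num)
    (by norm_num) R2
  -- ⟨6, 22, 33⟩ = 6 ℕ + 11 ⟨2, 3⟩
  obtain ⟨G4, f4, hf4, h4⟩ := glue' (isHom_pow z6) hf3 (a := 6) (b := 11) (by norm_num)
    (by norm_num) (by norm_num) (AddSubmonoid.mem_top _) (m3 3 0)
    (by have := e3 3 0; norm_num at this; rw [this]; exact R3)
  have g4 : ∀ i m n : ℕ, 6 * i + 11 * (2 * m + 3 * n) ∈ G4 ∧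
      f4 (6 * i + 11 * (2 * m + 3 * n)) = z6 ^ i * (z22 ^ m * z33 ^ n) := by
    intro i m n
    have := h4 i (AddSubmonoid.mem_top _) (2 * m + 3 * n) (m3 m n)
    rw [e3] at this
    exact this
  -- 21 ⟨6, 22, 33⟩ + 61 ⟨2, 7⟩
  have c61 := g4 1 1 1
  have c21 := m2 0 3
  have d21 := e2 0 3
  norm_num at c61 c21 d21
  obtain ⟨G5, f5, hf5, h5⟩ := glue' hf4 hf2 (a := 21) (b := 61) (by norm_num)
    (by norm_num) (by norm_num) c61.1 c21 (by rw [c61.2, d21, ← R4, mul_assoc])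
  have g5 : ∀ i m n p q : ℕ, 21 * (6 * i + 11 * (2 * m + 3 * n)) + 61 * (2 * p + 7 * q) ∈ G5 ∧
      f5 (21 * (6 * i + 11 * (2 * m + 3 * n)) + 61 * (2 * p + 7 * q)) =
        z6 ^ i * (z22 ^ m * z33 ^ n) * (y2 ^ p * y7 ^ q) := by
    intro i m n p q
    have := h5 _ (g4 i m n).1 _ (m2 p q)
    rw [(g4 i m n).2, e2] at this
    exact this
  -- 2 G5 + 679 ℕ
  have c679 := g5 2 0 0 0 1
  norm_num at c679
  obtain ⟨G6, f6, hf6, h6⟩ := glue' hf5 (isHom_pow w) (a := 2) (b := 679) (by norm_num)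
    (by norm_num) (by norm_num) c679.1 (AddSubmonoid.mem_top _)
    (by rw [c679.2, ← R5, mul_comm])
  have g6 : ∀ i m n p q r : ℕ,
      2 * (21 * (6 * i + 11 * (2 * m + 3 * n)) + 61 * (2 * p + 7 * q)) + 679 * r ∈ G6 ∧
      f6 (2 * (21 * (6 * i + 11 * (2 * m + 3 * n)) + 61 * (2 * p + 7 * q)) + 679 * r) =
        z6 ^ i * (z22 ^ m * z33 ^ n) * (y2 ^ p * y7 ^ q) * w ^ r := by
    intro i m n p q r
    have := h6 _ (g5 i m n p q).1 r (AddSubmonoid.mem_top _)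
    rw [(g5 i m n p q).2] at this
    exact this
  -- 18 G6 + 4249 ℕ
  have c4249 := g6 4 0 0 0 3 1
  norm_num at c4249
  obtain ⟨G7, f7, hf7, h7⟩ := glue' hf6 (isHom_pow v) (a := 18) (b := 4249) (by norm_num)
    (by norm_num) (by norm_num) c4249.1 (AddSubmonoid.mem_top _)
    (by rw [c4249.2, ← R6, mul_comm, mul_assoc, mul_comm (z6 ^ 4)])
  have g7 : ∀ i m n p q r s : ℕ,
      18 * (2 * (21 * (6 * i + 11 * (2 * m + 3 * n)) + 61 * (2 * p + 7 * q)) + 679 * r) +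
        4249 * s ∈ G7 ∧
      f7 (18 * (2 * (21 * (6 * i + 11 * (2 * m + 3 * n)) + 61 * (2 * p + 7 * q)) + 679 * r) +
        4249 * s) =
        z6 ^ i * (z22 ^ m * z33 ^ n) * (y2 ^ p * y7 ^ q) * w ^ r * v ^ s := by
    intro i m n p q r s
    have := h7 _ (g6 i m n p q r).1 s (AddSubmonoid.mem_top _)
    rw [(g6 i m n p q r).2] at this
    exact this
  refine ⟨G7, f7, hf7, ?_, ?_, ?_, ?_, ?_, ?_, ?_⟩
  · have := g7 0 0 0 0 0 0 1; norm_num at this; exact this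
  · have := g7 0 0 0 1 0 0 0; norm_num at this; exact this
  · have := g7 1 0 0 0 0 0 0; norm_num at this; exact this
  · have := g7 0 0 0 0 0 1 0; norm_num at this; exact this
  · have := g7 0 0 0 0 1 0 0; norm_num at this; exact this
  · have := g7 0 1 0 0 0 0 0; norm_num at this; exact this
  · have := g7 0 0 1 0 0 0 0; norm_num at this; exact this

end Pool.Agent.W251.Tower
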