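import Mathlib
import Pool.Agent.W251.Mask
import Pool.Agent.W251.Data
import Pool.Agent.W251.Tower
import Pool.Agent.W251.Toric

set_option autoImplicit false

/-! The complete intersection numerical semigroup
`⟨4249, 4392, 4536, 12222, 15372, 16632, 24948⟩` has `h(57) = 4119 > h(58) = 4118`. -/

namespace Pool.Agent.W251.Final
open Pool.Agent.W251.Mask Pool.Agent.W251.Data Pool.Agent.W251.Glue

lemma S_pos : ∀ g ∈ S, 0 < g := by decide

lemma mem_of_tail (n : ℕ) (hn : 195228 ≤ n) : n ∈ Gam S := by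
  induction n using Nat.strong_induction_on with
  | _ n ih =>
    by_cases hlt : n < N
    · rw [← mask_zero S_pos hfix n hlt]
      have h1 : (t0 >>> 195228).testBit (n - 195228) = true := by
        rw [htail, Nat.testBit_two_pow_sub_one]
        have : n < N := hlt
        simp only [decide_eq_true_eq]
        omega
      rw [Nat.testBit_shiftRight] at h1
      rwa [show 195228 + (n - 195228) = n by omega] at h1
    · have hN : N = 524288 := rfl
      have := ih (n - 4249) (by omega) (by omega)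
      have h2 : n = 4249 + (n - 4249) := by omega
      rw [h2]
      exact (Gam S).add_mem (gen_mem (by decide)) this

lemma compl_finite : Set.Finite ((Gam S : Set ℕ)ᶜ) := by
  refine (Set.finite_lt_nat 195228).subset fun n hn => ?_
  by_contra h
  exact hn (mem_of_tail n (by simpa using h))

lemma large_mem (j n : ℕ) (hj : j ≤ 59) (hn : N ≤ n) : P S j n := by
  have hN : N = 524288 := rfl
  have h1 := P_of_large (S := S) (g := 4249) (by decide) j (n - j * 4249)
    (mem_of_tail _ (by omega))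
  rwa [show j * 4249 + (n - j * 4249) = n by omega] at h1

lemma count (j : ℕ) (hj : j + 2 ≤ 59) :
    Set.ncard (J (Gam S) (j + 1) \ J (Gam S) (j + 2)) =
      pc 19 (T N S t0 (j + 1) ^^^ T N S t0 (j + 2)) := by
  have hN : N = 2 ^ 19 := by decide
  have hlt : T N S t0 (j + 1) ^^^ T N S t0 (j + 2) < 2 ^ (2 ^ 19) := by
    rw [← hN]
    exact Nat.xor_lt_two_pow (T_lt hfix _) (T_lt hfix _)
  rw [← pc_spec 19 _ hlt, ← Set.ncard_coe_finset]
  congr 1
  ext n
  rw [Set.mem_sdiff, J_eq_P S S_pos, J_eq_P S S_pos]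
  simp only [Finset.coe_filter, Finset.mem_range, Set.mem_ofPred_eq]
  rw [← hN]
  constructor
  · rintro ⟨h1, h2⟩
    have hn : n < N := by
      by_contra h
      exact h2 (large_mem _ n hj (by omega))
    refine ⟨hn, ?_⟩
    rw [Nat.testBit_xor]
    have e1 := (mask_spec S_pos hfix (j + 1) n hn).2 h1
    have e2 : (T N S t0 (j + 2)).testBit n = false := by
      rw [Bool.eq_false_iff]
      exact fun h => h2 ((mask_spec S_pos hfix (j + 2) n hn).1 h)
    rw [e1, e2]; rfl
  · rintro ⟨hn, hb⟩
    rw [Nat.testBit_xor] at hb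
    have hsub : P S (j + 2) n → P S (j + 1) n := P_succ_le
    rw [← mask_spec S_pos hfix (j + 1) n hn, ← mask_spec S_pos hfix (j + 2) n hn]
    rw [← mask_spec S_pos hfix (j + 1) n hn, ← mask_spec S_pos hfix (j + 2) n hn] at hsub
    cases h1 : (T N S t0 (j + 1)).testBit n <;> cases h2 : (T N S t0 (j + 2)).testBit n <;>
      simp_all

lemma count' (a b : ℕ) (ha : 1 ≤ a) (hab : b = a + 1) (hb : b ≤ 59) :
    Set.ncard (J (Gam S) a \ J (Gam S) b) = pc 19 (T N S t0 a ^^^ T N S t0 b) := by
  obtain ⟨j, rfl⟩ := Nat.exists_eq_add_of_le' ha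
  subst hab
  exact count j hb

theorem ncard57 : Set.ncard (J (Gam S) 57 \ J (Gam S) 58) = 4119 := by
  rw [count' 57 58 (by norm_num) (by norm_num) (by norm_num), h57]

theorem ncard58 : Set.ncard (J (Gam S) 58 \ J (Gam S) 59) = 4118 := by
  rw [count' 58 59 (by norm_num) (by norm_num) (by norm_num), h58]

/-- The minimal generators are exactly the seven given numbers. -/
lemma min_iff (a : ℕ) :
    (a ∈ Gam S ∧ a ≠ 0 ∧ ∀ b ∈ Gam S, ∀ c ∈ Gam S, b + c = a → b = 0 ∨ c = 0) ↔ a ∈ S := by
  constructor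
  · rintro ⟨ha, ha0, hmin'⟩
    rcases (mem_Gam_iff S a).1 ha with h | ⟨g, hg, m, hm, hgm⟩
    · exact absurd h ha0
    · have := S_pos g hg
      rcases hmin' g (gen_mem hg) m hm hgm.symm with h | h
      · omega
      · have : a = g := by omega
        rwa [this]
  · intro ha
    have hN : N = 524288 := rfl
    have hSN : ∀ g ∈ S, g < N := by decide
    refine ⟨gen_mem ha, (S_pos a ha).ne', ?_⟩
    intro b hb c hc hbc
    by_contra hcon
    push Not at hcon
    have h2 : P S 2 a := by
      rcases (mem_Gam_iff S b).1 hb with h | ⟨g, hg, m, hm, hgm⟩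
      · exact absurd h hcon.1
      rcases (mem_Gam_iff S c).1 hc with h | ⟨g', hg', m', hm', hgm'⟩
      · exact absurd h hcon.2
      have h1 : P S 1 c := ⟨g', hg', m', hm', hgm'⟩
      exact ⟨g, hg, m + c, P_add h1 hm, by omega⟩
    have := (mask_spec S_pos hfix 2 a (hSN a ha)).2 h2
    rw [hmin a ha] at this
    exact absurd this (by decide)

/-- the index type of the frozen statement -/
abbrev Idx : Type :=
  {a : ℕ // a ∈ Gam S ∧ a ≠ 0 ∧ ∀ b ∈ Gam S, ∀ c ∈ Gam S, b + c = a → b = 0 ∨ c = 0}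

lemma card_idx : Nat.card Idx = 7 := by
  have := Nat.subtype_card (p := fun a => a ∈ Gam S ∧ a ≠ 0 ∧
    ∀ b ∈ Gam S, ∀ c ∈ Gam S, b + c = a → b = 0 ∨ c = 0) S.toFinset
    (fun x => by rw [List.mem_toFinset, min_iff])
  rw [Idx, this]
  decide

open MvPolynomial

/-- the generator as an index -/
def ix (a : ℕ) (h : a ∈ S) : Idx := ⟨a, (min_iff a).2 h⟩

theorem ci : ∃ s : Finset (MvPolynomial Idx ℚ),
    s.card + 1 ≤ Nat.card Idx ∧
    Ideal.span (s : Set (MvPolynomial Idx ℚ)) =
      RingHom.ker (MvPolynomial.aeval (fun a : Idx => (Polynomial.X : Polynomial ℚ) ^ a.val)) := by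
  classical
  let v : MvPolynomial Idx ℚ := X (ix 4249 (by decide))
  let y2 : MvPolynomial Idx ℚ := X (ix 4392 (by decide))
  let z6 : MvPolynomial Idx ℚ := X (ix 4536 (by decide))
  let w : MvPolynomial Idx ℚ := X (ix 12222 (by decide))
  let y7 : MvPolynomial Idx ℚ := X (ix 15372 (by decide))
  let z22 : MvPolynomial Idx ℚ := X (ix 16632 (by decide))
  let z33 : MvPolynomial Idx ℚ := X (ix 24948 (by decide))
  let s : Finset (MvPolynomial Idx ℚ) :=
    {y2 ^ 7 - y7 ^ 2, z22 ^ 3 - z33 ^ 2, z6 ^ 11 - z22 ^ 3, z6 * z22 * z33 - y7 ^ 3,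
      y7 * z6 ^ 2 - w ^ 2, w * y7 ^ 3 * z6 ^ 4 - v ^ 18}
  refine ⟨s, ?_, ?_⟩
  · rw [card_idx]
    have : s.card ≤ 6 := Finset.card_le_six
    omega
  · apply le_antisymm
    · rw [Ideal.span_le]
      intro p hp
      have hp' : p = y2 ^ 7 - y7 ^ 2 ∨ p = z22 ^ 3 - z33 ^ 2 ∨ p = z6 ^ 11 - z22 ^ 3 ∨
          p = z6 * z22 * z33 - y7 ^ 3 ∨ p = y7 * z6 ^ 2 - w ^ 2 ∨
          p = w * y7 ^ 3 * z6 ^ 4 - v ^ 18 := by
        simpa [s] using hp
      rw [SetLike.mem_coe, RingHom.mem_ker]
      rcases hp' with rfl | rfl | rfl | rfl | rfl | rfl <;>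
        simp only [v, y2, z6, w, y7, z22, z33, map_sub, map_mul, map_pow, aeval_X, ix] <;>
        rw [sub_eq_zero] <;> simp only [← pow_mul, ← pow_add] 
    · set I := Ideal.span (s : Set (MvPolynomial Idx ℚ)) with hI
      have rel : ∀ p q : MvPolynomial Idx ℚ, p - q ∈ s →
          Ideal.Quotient.mk I p = Ideal.Quotient.mk I q := fun p q h =>
        Ideal.Quotient.eq.2 (Ideal.subset_span h)
      obtain ⟨G, f, hf, h1, h2, h3, h4, h5, h6, h7⟩ := Tower.exists_hom
        (Ideal.Quotient.mk I v) (Ideal.Quotient.mk I y2) (Ideal.Quotient.mk I z6)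
        (Ideal.Quotient.mk I w) (Ideal.Quotient.mk I y7) (Ideal.Quotient.mk I z22)
        (Ideal.Quotient.mk I z33)
        (by simp only [← map_pow]; exact rel _ _ (by simp [s]))
        (by simp only [← map_pow]; exact rel _ _ (by simp [s]))
        (by simp only [← map_pow]; exact rel _ _ (by simp [s]))
        (by simp only [← map_pow, ← map_mul]; exact rel _ _ (by simp [s]))
        (by simp only [← map_pow, ← map_mul]; exact rel _ _ (by simp [s]))
        (by simp only [← map_pow, ← map_mul]; exact rel _ _ (by simp [s]))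
      have hall : ∀ a : Idx, a.val ∈ G ∧ f a.val = Ideal.Quotient.mk I (X a) := by
        rintro ⟨a, ha⟩
        have haS := (min_iff a).1 ha
        have haS' : a = 4249 ∨ a = 4392 ∨ a = 4536 ∨ a = 12222 ∨ a = 15372 ∨ a = 16632 ∨
            a = 24948 := by simpa [S] using haS
        rcases haS' with rfl | rfl | rfl | rfl | rfl | rfl | rfl
        · exact h1
        · exact h2
        · exact h3
        · exact h4
        · exact h5
        · exact h6
        · exact h7
      exact ker_le (fun a => (hall a).1) hf (fun a => (hall a).2)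

end Pool.Agent.W251.Final
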