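import Pool.Agent.W854.HW.Stmts

set_option autoImplicit false

/-!
# HW-CONV: convergence in distribution to a real law forces `P(K = 0) → 0`
-/

open MeasureTheory ProbabilityTheory Filter Topology Set
open scoped NNReal ENNReal

namespace Pool.Agent.W251.HWConv

open Pool.Agent.W854.HW

theorem fluct_zero_pos (c σ t : ℝ) (ht : 0 < t) (hσ : 0 < σ) : fluct c σ t 0 = ⊤ := by
  unfold fluct
  rw [ENNReal.log_zero, EReal.neg_bot, EReal.top_sub_coe]
  refine EReal.top_div_of_pos_ne_top ?_ (EReal.coe_ne_top _)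
  exact_mod_cast mul_pos hσ (Real.rpow_pos_of_pos ht _)

theorem fluct_zero_neg (c σ t : ℝ) (ht : 0 < t) (hσ : σ < 0) : fluct c σ t 0 = ⊥ := by
  unfold fluct
  rw [ENNReal.log_zero, EReal.neg_bot, EReal.top_sub_coe]
  refine EReal.top_div_of_neg_ne_bot ?_ (EReal.coe_ne_bot _)
  exact_mod_cast mul_neg_of_neg_of_pos hσ (Real.rpow_pos_of_pos ht _)

theorem atoms (χ : Measure ℝ) [IsProbabilityMeasure χ] : Dense {s : ℝ | χ {s} = 0} := by
  have h1 : ({s : ℝ | 0 < χ {s}}).Countable := by
    have := Measure.countable_meas_level_set_pos (μ := χ) (g := fun a : ℝ => a) measurable_id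
    refine this.mono fun s hs => ?_
    have h2 : {a : ℝ | a = s} = {s} := rfl
    simpa [h2] using hs
  have h2 := h1.dense_compl ℝ
  refine h2.mono fun s hs => ?_
  by_contra h
  exact hs (pos_iff_ne_zero.mpr h)

theorem main : S_CONV := by
  intro Ω mΩ P _ K x c σ χ _ hσ hconv
  rw [ENNReal.tendsto_nhds_zero]
  intro ε hε
  have hmeas : ∀ t : ℝ, MeasurableSet {ω | K 0 t (ω, 0) (Icc (t * x) (t * x + 1)) = 0} := by
    intro t
    have h1 : Measurable fun ω : Ω => K 0 t (ω, 0) (Icc (t * x) (t * x + 1)) :=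
      ((K 0 t).measurable_coe measurableSet_Icc).comp measurable_prodMk_right
    exact h1 (measurableSet_singleton 0)
  rcases lt_or_gt_of_ne hσ with hneg | hpos
  · -- `σ < 0`
    have h1 : Tendsto (fun s : ℝ => χ (Iic s)) atBot (𝓝 0) := by
      have h := tendsto_measure_iInter_atBot (μ := χ) (s := fun s : ℝ => Iic s)
        (fun i => measurableSet_Iic.nullMeasurableSet) (fun a b hab => Iic_subset_Iic.mpr hab)
        ⟨0, measure_ne_top _ _⟩
      have h' : (⋂ n : ℝ, Iic n) = (∅ : Set ℝ) := by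
        ext y
        simp only [mem_iInter, mem_Iic, mem_empty_iff_false, iff_false, not_forall, not_le]
        exact ⟨y - 1, by linarith⟩
      rw [h', measure_empty] at h
      exact h
    have h2 : ∀ᶠ s in atBot, χ (Iic s) < ε := h1.eventually (gt_mem_nhds hε)
    obtain ⟨S, hS⟩ := eventually_atBot.mp h2
    obtain ⟨s, hs0, hs⟩ := (atoms χ).exists_lt S
    have h3 := hconv s hs0
    have h4 := h3.eventually (gt_mem_nhds (hS s hs.le))
    filter_upwards [h4, eventually_gt_atTop 0] with t ht ht0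
    refine (measure_mono ?_).trans ht.le
    intro ω hω
    rw [mem_ofPred_eq] at hω ⊢
    rw [hω, fluct_zero_neg c σ t ht0 hneg]
    exact bot_le
  · -- `σ > 0`
    have h1 : Tendsto (fun s : ℝ => χ (Iic s)) atTop (𝓝 (χ univ)) := tendsto_measure_Iic_atTop χ
    rw [measure_univ] at h1
    have h0 : 1 - ε < 1 := ENNReal.sub_lt_self ENNReal.one_ne_top one_ne_zero hε.ne'
    have h2 : ∀ᶠ s in atTop, 1 - ε < χ (Iic s) := h1.eventually (lt_mem_nhds h0)
    obtain ⟨S, hS⟩ := eventually_atTop.mp h2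
    obtain ⟨s, hs0, hs⟩ := (atoms χ).exists_gt S
    have h3 := hconv s hs0
    have h4 := h3.eventually (lt_mem_nhds (hS s hs.le))
    filter_upwards [h4, eventually_gt_atTop 0] with t ht ht0
    have hd : Disjoint {ω | fluct c σ t (K 0 t (ω, 0) (Icc (t * x) (t * x + 1))) ≤ (s : EReal)}
        {ω | K 0 t (ω, 0) (Icc (t * x) (t * x + 1)) = 0} := by
      rw [Set.disjoint_left]
      intro ω h5 h6
      rw [mem_ofPred_eq] at h5 h6
      rw [h6, fluct_zero_pos c σ t ht0 hpos] at h5
      exact absurd (top_le_iff.mp h5) (EReal.coe_ne_top s)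
    have h5 := measure_union (μ := P) hd (hmeas t)
    have h6 : P {ω | fluct c σ t (K 0 t (ω, 0) (Icc (t * x) (t * x + 1))) ≤ (s : EReal)} +
        P {ω | K 0 t (ω, 0) (Icc (t * x) (t * x + 1)) = 0} ≤ 1 := by
      rw [← h5]; exact prob_le_one
    have h7 : 1 ≤ P {ω | fluct c σ t (K 0 t (ω, 0) (Icc (t * x) (t * x + 1))) ≤ (s : EReal)} + ε :=
      tsub_le_iff_right.mp ht.le
    exact ENNReal.le_of_add_le_add_left (measure_ne_top _ _) (h6.trans h7)

end Pool.Agent.W251.HWConv
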